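import Pool.Agent.MP_f60a12_co.Defs

-- part MP_f60a12_co.Words
section

/-! Reduced words and the sizes of the layers. -/

namespace Pool.Agent.MP_f60a12_co

open FreeGroup

variable {A : Type} [DecidableEq A]

/-- The inverse letter. -/
def bar (a : A × Bool) : A × Bool := (a.1, !a.2)

/-- The group element of a letter. -/
def lt (a : A × Bool) : FreeGroup A := FreeGroup.mk [a]

omit [DecidableEq A] in
@[simp] lemma bar_bar (a : A × Bool) : bar (bar a) = a := by simp [bar]

omit [DecidableEq A] in
lemma bar_ne (a : A × Bool) : bar a ≠ a := by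
  obtain ⟨x, b⟩ := a
  cases b <;> simp [bar]

omit [DecidableEq A] in
lemma rel_iff (a b : A × Bool) : (a.1 = b.1 → a.2 = b.2) ↔ b ≠ bar a := by
  obtain ⟨x, s⟩ := a
  obtain ⟨y, t⟩ := b
  simp only [bar, ne_eq, Prod.mk.injEq, not_and]
  constructor
  · intro h e; have := h e.symm; subst this; simp
  · intro h e; have := h e.symm; cases s <;> cases t <;> simp_all

omit [DecidableEq A] in
lemma lt_mul_lt_bar (a : A × Bool) : lt a * lt (bar a) = 1 := by
  have : lt (bar a) = (lt a)⁻¹ := by
    simp [lt, bar, FreeGroup.inv_mk, FreeGroup.invRev]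
  rw [this, mul_inv_cancel]

omit [DecidableEq A] in
lemma lt_inv (a : A × Bool) : (lt a)⁻¹ = lt (bar a) :=
  inv_eq_of_mul_eq_one_right (lt_mul_lt_bar a)

lemma toWord_mk_of {l : List (A × Bool)} (h : IsReduced l) : (FreeGroup.mk l).toWord = l := by
  rw [toWord_mk, h.reduce_eq]

@[simp] lemma toWord_lt (a : A × Bool) : (lt a).toWord = [a] := toWord_mk_of IsReduced.singleton

lemma toWord_mul_of {x y : FreeGroup A} (h : IsReduced (x.toWord ++ y.toWord)) :
    (x * y).toWord = x.toWord ++ y.toWord := by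
  rw [toWord_mul, h.reduce_eq]

omit [DecidableEq A] in
lemma isReduced_append {l r : List (A × Bool)} : IsReduced (l ++ r) ↔
    IsReduced l ∧ IsReduced r ∧ ∀ x ∈ l.getLast?, ∀ y ∈ r.head?, y ≠ bar x := by
  unfold FreeGroup.IsReduced
  rw [List.isChain_append]
  simp only [rel_iff]

lemma toWord_mul_of' {x y : FreeGroup A}
    (h : ∀ a ∈ x.toWord.getLast?, ∀ b ∈ y.toWord.head?, b ≠ bar a) :
    (x * y).toWord = x.toWord ++ y.toWord :=
  toWord_mul_of (isReduced_append.2 ⟨isReduced_toWord, isReduced_toWord, h⟩)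

lemma toWord_lt_mul {a : A × Bool} {y : FreeGroup A} (h : y.toWord.head? ≠ some (bar a)) :
    (lt a * y).toWord = a :: y.toWord := by
  rw [toWord_mul_of', toWord_lt, List.singleton_append]
  intro x hx b hb e
  simp only [toWord_lt, List.getLast?_singleton, Option.mem_def, Option.some.injEq] at hx
  subst hx e
  exact h hb

lemma toWord_mul_lt {a : A × Bool} {y : FreeGroup A} (h : y.toWord.getLast? ≠ some (bar a)) :
    (y * lt a).toWord = y.toWord ++ [a] := by
  rw [toWord_mul_of', toWord_lt]
  intro x hx b hb e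
  simp only [toWord_lt, List.head?_cons, Option.mem_def, Option.some.injEq] at hb
  subst hb
  rw [e, bar_bar] at h
  exact h hx

/-- Splitting the reduced word of an element. -/
lemma exists_split {y : FreeGroup A} {l r : List (A × Bool)} (h : y.toWord = l ++ r) :
    ∃ u v : FreeGroup A, u.toWord = l ∧ v.toWord = r ∧ y = u * v := by
  have h1 : IsReduced (l ++ r) := h ▸ isReduced_toWord
  obtain ⟨h2, h3, -⟩ := isReduced_append.1 h1
  refine ⟨FreeGroup.mk l, FreeGroup.mk r, toWord_mk_of h2, toWord_mk_of h3, ?_⟩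
  rw [FreeGroup.mul_mk, ← h, mk_toWord]

lemma exists_tail {y : FreeGroup A} {a : A × Bool} {r : List (A × Bool)} (h : y.toWord = a :: r) :
    ∃ v : FreeGroup A, v.toWord = r ∧ y = lt a * v ∧ r.head? ≠ some (bar a) := by
  obtain ⟨u, v, hu, hv, e⟩ := exists_split (l := [a]) (r := r) h
  have : u = lt a := toWord_injective (by rw [hu, toWord_lt])
  refine ⟨v, hv, this ▸ e, fun hb => ?_⟩
  have h1 : IsReduced ([a] ++ r) := by
    have := isReduced_toWord (x := y)
    rwa [h] at this
  exact (isReduced_append.1 h1).2.2 a (by simp) _ hb rfl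

lemma layer_finite [Finite A] (n : ℕ) : (layer A n).Finite :=
  Set.Finite.preimage (toWord_injective.injOn) (List.finite_length_eq (A × Bool) n)

/-- The growth rate `2 |A| - 1`. -/
def qq (A : Type) [Fintype A] : ℕ := 2 * Fintype.card A - 1

omit [DecidableEq A] in
lemma qq_pos [Fintype A] [Nonempty A] : 1 ≤ qq A := by
  have := Fintype.card_pos (α := A)
  unfold qq; omega

lemma card_erase [Fintype A] (a : A × Bool) : (Finset.univ.erase a).card = qq A := by
  rw [Finset.card_erase_of_mem (Finset.mem_univ _), Finset.card_univ, Fintype.card_prod,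
    Fintype.card_bool, qq, mul_comm]

lemma ncard_layer_succ [Fintype A] (n : ℕ) :
    (layer A (n + 1)).ncard = ∑ y ∈ (layer_finite (A := A) n).toFinset,
      (Finset.univ.filter fun a : A × Bool => y.toWord.head? ≠ some (bar a)).card := by
  rw [← Finset.card_sigma, Set.ncard_eq_toFinset_card _ (layer_finite (n + 1))]
  symm
  refine Finset.card_bij (fun z _ => lt z.2 * z.1) ?_ ?_ ?_
  · rintro ⟨y, a⟩ hz
    simp only [Finset.mem_sigma, Set.Finite.mem_toFinset, Finset.mem_filter, Finset.mem_univ,
      true_and] at hz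
    simp only [Set.Finite.mem_toFinset, layer, Set.mem_ofPred_eq]
    rw [toWord_lt_mul hz.2, List.length_cons, hz.1]
  · rintro ⟨y, a⟩ hz ⟨y', a'⟩ hz' e
    simp only [Finset.mem_sigma, Set.Finite.mem_toFinset, Finset.mem_filter, Finset.mem_univ,
      true_and] at hz hz'
    have e2 := congrArg toWord e
    simp only at e2
    rw [toWord_lt_mul hz.2, toWord_lt_mul hz'.2, List.cons.injEq] at e2
    obtain ⟨rfl, e3⟩ := e2
    obtain rfl := toWord_injective e3
    rfl
  · intro y hy
    simp only [Set.Finite.mem_toFinset, layer, Set.mem_ofPred_eq] at hy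
    obtain ⟨a, r, h⟩ := List.exists_cons_of_length_eq_add_one hy
    obtain ⟨v, hv, e, h2⟩ := exists_tail h
    refine ⟨⟨v, a⟩, ?_, e.symm⟩
    simp only [Finset.mem_sigma, Set.Finite.mem_toFinset, Finset.mem_filter, Finset.mem_univ,
      true_and, layer, Set.mem_ofPred_eq]
    rw [hv]
    refine ⟨?_, h2⟩
    rw [h] at hy
    simpa using hy

lemma ncard_layer_succ_eq [Fintype A] {n : ℕ} (hn : 1 ≤ n) :
    (layer A (n + 1)).ncard = qq A * (layer A n).ncard := by
  rw [ncard_layer_succ, Set.ncard_eq_toFinset_card _ (layer_finite n), mul_comm, ← smul_eq_mul,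
    ← Finset.sum_const]
  refine Finset.sum_congr rfl fun y hy => ?_
  simp only [Set.Finite.mem_toFinset, layer, Set.mem_ofPred_eq] at hy
  obtain ⟨m, rfl⟩ : ∃ m, n = m + 1 := ⟨n - 1, by omega⟩
  obtain ⟨b, r, h⟩ := List.exists_cons_of_length_eq_add_one hy
  rw [← card_erase (bar b)]
  congr 1
  ext a
  simp only [h, List.head?_cons, ne_eq, Option.some.injEq, Finset.mem_filter, Finset.mem_univ,
    true_and, Finset.mem_erase, and_true]
  constructor
  · rintro h1 rfl; exact h1 (bar_bar b).symm
  · rintro h1 rfl; exact h1 (bar_bar a).symm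

lemma ncard_layer_ge [Fintype A] (n : ℕ) : qq A ^ n ≤ (layer A n).ncard := by
  induction n with
  | zero =>
    rw [pow_zero]
    exact (Set.ncard_pos (layer_finite 0)).2 ⟨1, by simp [layer]⟩
  | succ n ih =>
    rcases Nat.eq_zero_or_pos n with rfl | hn
    · rw [ncard_layer_succ]
      have h1 : (1 : FreeGroup A) ∈ (layer_finite (A := A) 0).toFinset := by simp [layer]
      refine le_trans ?_ (Finset.single_le_sum (f := fun y : FreeGroup A =>
        (Finset.univ.filter fun a : A × Bool => y.toWord.head? ≠ some (bar a)).card)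
        (fun _ _ => Nat.zero_le _) h1)
      simp [qq]; omega
    · rw [ncard_layer_succ_eq hn, pow_succ, mul_comm]
      exact Nat.mul_le_mul_left _ ih

lemma ncard_layer_add [Fintype A] {n : ℕ} (hn : 1 ≤ n) (k : ℕ) :
    (layer A (n + k)).ncard = qq A ^ k * (layer A n).ncard := by
  induction k with
  | zero => simp
  | succ k ih => rw [← add_assoc, ncard_layer_succ_eq (by omega), ih]; ring

omit [DecidableEq A] in
lemma all_eq_of_subsingleton [Subsingleton A] : ∀ {l : List (A × Bool)}, IsReduced l →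
    ∀ a ∈ l.head?, ∀ b ∈ l.getLast?, a = b := by
  intro l
  induction l with
  | nil => intro _ a ha; simp at ha
  | cons x l ih =>
    intro h a ha b hb
    simp only [List.head?_cons, Option.mem_def, Option.some.injEq] at ha
    subst ha
    cases l with
    | nil => simpa using hb
    | cons y l =>
      rw [isReduced_cons_cons] at h
      have e : x = y := Prod.ext (Subsingleton.elim _ _) (h.1 (Subsingleton.elim _ _))
      rw [e]
      exact ih h.2 y (by simp) b (by simpa using hb)

end Pool.Agent.MP_f60a12_co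

end

-- part MP_f60a12_co.Dens
section

/-! A finitely additive density attaining the upper Banach density of a given set. -/

namespace Pool.Agent.MP_f60a12_co

open Filter Topology FreeGroup

/-- Averages over intervals. -/
noncomputable def avg (f : ℕ → ℝ) (p : ℕ × ℕ) : ℝ := (∑ n ∈ Finset.Ico p.1 (p.1 + p.2), f n) / p.2

section
variable {U : Filter (ℕ × ℕ)} (hU : U ≤ atTop ×ˢ atTop)

lemma avg_add (f g : ℕ → ℝ) : avg (fun n => f n + g n) = fun p => avg f p + avg g p := by
  funext p; simp only [avg, Finset.sum_add_distrib, add_div]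

lemma avg_mul (c : ℝ) (f : ℕ → ℝ) : avg (fun n => c * f n) = fun p => c * avg f p := by
  funext p; simp only [avg, ← Finset.mul_sum, mul_div_assoc]

lemma avg_mem {f : ℕ → ℝ} (hf : ∀ n, f n ∈ Set.Icc (0 : ℝ) 1) (p : ℕ × ℕ) :
    avg f p ∈ Set.Icc (0 : ℝ) 1 := by
  constructor
  · exact div_nonneg (Finset.sum_nonneg fun n _ => (hf n).1) (Nat.cast_nonneg _)
  · refine div_le_one_of_le₀ ?_ (Nat.cast_nonneg _)
    refine le_trans (Finset.sum_le_sum fun n _ => (hf n).2) ?_
    simp

include hU

lemma tendsto_avg_const (c : ℝ) : Tendsto (avg fun _ => c) U (𝓝 c) := by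
  refine tendsto_const_nhds.congr' ?_
  have : ∀ᶠ p : ℕ × ℕ in atTop ×ˢ atTop, 1 ≤ p.2 := tendsto_snd.eventually (eventually_ge_atTop 1)
  filter_upwards [hU this] with p hp
  have : (p.2 : ℝ) ≠ 0 := by positivity
  simp only [avg, Finset.sum_const, Nat.card_Ico, add_tsub_cancel_left, nsmul_eq_mul]
  field_simp

lemma avg_le [U.NeBot] {f g : ℕ → ℝ} {x y : ℝ} (hf : Tendsto (avg f) U (𝓝 x))
    (hg : Tendsto (avg g) U (𝓝 y)) (N : ℕ) (h : ∀ n, N ≤ n → f n ≤ g n) : x ≤ y := by
  refine le_of_tendsto_of_tendsto hf hg ?_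
  have : ∀ᶠ p : ℕ × ℕ in atTop ×ˢ atTop, N ≤ p.1 := tendsto_fst.eventually (eventually_ge_atTop N)
  filter_upwards [hU this] with p hp
  refine div_le_div_of_nonneg_right (Finset.sum_le_sum fun n hn => h n ?_) (Nat.cast_nonneg _)
  rw [Finset.mem_Ico] at hn
  omega

lemma tendsto_avg_shift {f : ℕ → ℝ} {x : ℝ} (hb : ∀ n, f n ∈ Set.Icc (0 : ℝ) 1)
    (hf : Tendsto (avg f) U (𝓝 x)) : Tendsto (avg fun n => f (n + 1)) U (𝓝 x) := by
  have h0 : Tendsto (fun p : ℕ × ℕ => (f (p.1 + p.2) - f p.1) / (p.2 : ℝ)) U (𝓝 0) := by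
    have h1 : Tendsto (fun p : ℕ × ℕ => 1 / (p.2 : ℝ)) U (𝓝 0) :=
      (tendsto_one_div_atTop_nhds_zero_nat.comp tendsto_snd).mono_left hU
    refine squeeze_zero_norm (fun p => ?_) h1
    rw [norm_div, Real.norm_natCast]
    refine div_le_div_of_nonneg_right ?_ (Nat.cast_nonneg _)
    have e1 := hb (p.1 + p.2)
    have e2 := hb p.1
    rw [Real.norm_eq_abs, abs_le]
    constructor <;> linarith [e1.1, e1.2, e2.1, e2.2]
  have := hf.add h0
  rw [add_zero] at this
  refine this.congr fun p => ?_
  simp only [avg]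
  rw [← add_div]
  congr 1
  have e := Finset.sum_Ico_add' f p.1 (p.1 + p.2) 1
  rw [e]
  have e1 := Finset.sum_Ico_succ_top (Nat.le_add_right p.1 p.2) f
  have e2 := Finset.sum_eq_sum_Ico_succ_bot (by omega : p.1 < p.1 + p.2 + 1) f
  linarith

lemma tendsto_avg_shift_iter {f : ℕ → ℝ} {x : ℝ} (hb : ∀ n, f n ∈ Set.Icc (0 : ℝ) 1)
    (hf : Tendsto (avg f) U (𝓝 x)) (k : ℕ) : Tendsto (avg fun n => f (n + k)) U (𝓝 x) := by
  induction k with
  | zero => exact hf
  | succ k ih =>
    have := tendsto_avg_shift hU (f := fun n => f (n + k)) (fun n => hb _) ih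
    simpa [add_assoc, add_comm 1 k] using this

end

variable {A : Type} [DecidableEq A] [Fintype A]

/-- The properties of a limit density that are used. -/
structure IsDens (d : Set (FreeGroup A) → ℝ) : Prop where
  nonneg : ∀ B, 0 ≤ d B
  univ : d Set.univ = 1
  add : ∀ B C, Disjoint B C → d (B ∪ C) = d B + d C
  mono_long : ∀ B C (N : ℕ), (∀ y, N ≤ y.toWord.length → y ∈ B → y ∈ C) → d B ≤ d C
  scale : ∀ (B : Set (FreeGroup A)) (φ : FreeGroup A → FreeGroup A) (k : ℕ), Set.InjOn φ B →
    (∀ y ∈ B, (φ y).toWord.length = y.toWord.length + k) → (qq A : ℝ) ^ k * d (φ '' B) = d B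
  layer : ∀ B (c : ℝ), 0 ≤ c → c < d B → ∀ N : ℕ, ∃ n, N ≤ n ∧
    c * (qq A : ℝ) ^ n ≤ ((B ∩ layer A n).ncard : ℝ)

lemma layer_pos [Nonempty A] (n : ℕ) : (0 : ℝ) < (layer A n).ncard := by
  have h1 := ncard_layer_ge (A := A) n
  have h2 : 0 < qq A ^ n := pow_pos qq_pos n
  exact_mod_cast lt_of_lt_of_le h2 h1

lemma layerDensity_mem (B : Set (FreeGroup A)) (n : ℕ) :
    layerDensity B n ∈ Set.Icc (0 : ℝ) 1 := by
  constructor
  · exact div_nonneg (Nat.cast_nonneg _) (Nat.cast_nonneg _)
  · refine div_le_one_of_le₀ ?_ (Nat.cast_nonneg _)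
    exact_mod_cast Set.ncard_le_ncard Set.inter_subset_right (layer_finite n)

theorem exists_dens [Nonempty A] (S : Set (FreeGroup A)) :
    ∃ d : Set (FreeGroup A) → ℝ, IsDens d ∧ d S = upperBanachDensity S := by
  have hcl : MapClusterPt (upperBanachDensity S) (atTop ×ˢ atTop) (avg (layerDensity S)) := by
    refine MapClusterPt.limsup ?_ ?_
    · exact isCoboundedUnder_le_of_le _ fun p => (avg_mem (layerDensity_mem S) p).1
    · exact isBoundedUnder_of ⟨1, fun p => (avg_mem (layerDensity_mem S) p).2⟩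
  obtain ⟨U, hU, hS⟩ := mapClusterPt_iff_ultrafilter.1 hcl
  have hex : ∀ B : Set (FreeGroup A), ∃ x, Tendsto (avg (layerDensity B)) U (𝓝 x) := by
    intro B
    obtain ⟨x, -, hx⟩ := isCompact_Icc.ultrafilter_le_nhds (U.map (avg (layerDensity B)))
      (by
        rw [Ultrafilter.coe_map, le_principal_iff, mem_map]
        exact univ_mem' fun p => avg_mem (layerDensity_mem B) p)
    exact ⟨x, hx⟩
  choose d hd using hex
  refine ⟨d, ⟨fun B => ?_, ?_, fun B C hBC => ?_, fun B C N h => ?_, fun B φ k h1 h2 => ?_,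
    fun B c hc0 hc N => ?_⟩, tendsto_nhds_unique (hd S) hS⟩
  · exact ge_of_tendsto' (hd B) fun p => (avg_mem (layerDensity_mem B) p).1
  · refine tendsto_nhds_unique (hd _) ?_
    have : layerDensity (Set.univ : Set (FreeGroup A)) = fun _ => 1 := by
      funext n
      rw [layerDensity, Set.univ_inter, div_self (layer_pos n).ne']
    rw [this]
    exact tendsto_avg_const hU 1
  · refine tendsto_nhds_unique (hd _) ?_
    have : layerDensity (B ∪ C) = fun n => layerDensity B n + layerDensity C n := by
      funext n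
      rw [layerDensity, layerDensity, layerDensity, Set.union_inter_distrib_right,
        Set.ncard_union_eq (hBC.mono Set.inter_subset_left Set.inter_subset_left)
          ((layer_finite n).subset Set.inter_subset_right)
          ((layer_finite n).subset Set.inter_subset_right), Nat.cast_add, add_div]
    rw [this, avg_add]
    exact (hd B).add (hd C)
  · refine avg_le hU (hd B) (hd C) N fun n hn => ?_
    refine div_le_div_of_nonneg_right ?_ (Nat.cast_nonneg _)
    refine Nat.cast_le.2 (Set.ncard_le_ncard ?_ ((layer_finite n).subset Set.inter_subset_right))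
    rintro y ⟨hy1, hy2⟩
    exact ⟨h y (by rw [hy2]; exact hn) hy1, hy2⟩
  · have t1 : Tendsto (avg fun n => (qq A : ℝ) ^ k * layerDensity (φ '' B) (n + k)) U
        (𝓝 ((qq A : ℝ) ^ k * d (φ '' B))) := by
      rw [avg_mul]
      exact (tendsto_avg_shift_iter hU (layerDensity_mem _) (hd _) k).const_mul _
    have key : ∀ n, 1 ≤ n → (qq A : ℝ) ^ k * layerDensity (φ '' B) (n + k) = layerDensity B n := by
      intro n hn
      have e : φ '' B ∩ layer A (n + k) = φ '' (B ∩ layer A n) := by
        ext y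
        constructor
        · rintro ⟨⟨z, hz, rfl⟩, hy⟩
          refine ⟨z, ⟨hz, ?_⟩, rfl⟩
          have e1 : (φ z).toWord.length = n + k := hy
          have e2 := h2 z hz
          show z.toWord.length = n
          omega
        · rintro ⟨z, ⟨hz, hz2⟩, rfl⟩
          refine ⟨⟨z, hz, rfl⟩, ?_⟩
          have e1 : z.toWord.length = n := hz2
          show (φ z).toWord.length = n + k
          rw [h2 z hz, e1]
      have hq : (qq A : ℝ) ^ k ≠ 0 := by
        have : (0 : ℝ) < qq A := by exact_mod_cast qq_pos (A := A)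
        positivity
      rw [layerDensity, layerDensity, e, Set.InjOn.ncard_image (h1.mono Set.inter_subset_left),
        ncard_layer_add hn]
      push_cast
      field_simp
    exact le_antisymm (avg_le hU t1 (hd B) 1 fun n hn => (key n hn).le)
      (avg_le hU (hd B) t1 1 fun n hn => (key n hn).ge)
  · by_contra hcon
    push Not at hcon
    refine absurd (avg_le hU (hd B) (tendsto_avg_const hU c) N fun n hn => ?_) (not_le.2 hc)
    rw [layerDensity, div_le_iff₀ (layer_pos n)]
    refine le_trans (hcon n hn).le (mul_le_mul_of_nonneg_left ?_ hc0)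
    exact_mod_cast ncard_layer_ge n

namespace IsDens

variable {d : Set (FreeGroup A) → ℝ} (hd : IsDens d)
include hd

lemma mono {B C : Set (FreeGroup A)} (h : B ⊆ C) : d B ≤ d C :=
  hd.mono_long B C 0 fun _ _ hy => h hy

lemma congr_long {B C : Set (FreeGroup A)} (N : ℕ)
    (h : ∀ y, N ≤ y.toWord.length → (y ∈ B ↔ y ∈ C)) : d B = d C :=
  le_antisymm (hd.mono_long B C N fun y hy => (h y hy).1) (hd.mono_long C B N fun y hy => (h y hy).2)

lemma empty : d ∅ = 0 := by
  have := hd.add ∅ ∅ (by simp)
  rw [Set.union_self] at this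
  linarith

lemma le_one (B : Set (FreeGroup A)) : d B ≤ 1 := hd.univ ▸ hd.mono (Set.subset_univ B)

lemma inter_add_diff (B C : Set (FreeGroup A)) : d B = d (B ∩ C) + d (B \ C) := by
  rw [← hd.add _ _ (Set.disjoint_sdiff_right.mono_left Set.inter_subset_right),
    Set.inter_union_sdiff]

lemma union_le (B C : Set (FreeGroup A)) : d (B ∪ C) ≤ d B + d C := by
  rw [← Set.union_sdiff_self, hd.add _ _ Set.disjoint_sdiff_right]
  have := hd.mono (Set.sdiff_subset (s := C) (t := B))
  linarith

lemma biUnion {ι : Type} (s : Finset ι) (f : ι → Set (FreeGroup A))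
    (h : (s : Set ι).PairwiseDisjoint f) : d (⋃ i ∈ s, f i) = ∑ i ∈ s, d (f i) := by
  classical
  induction s using Finset.induction_on with
  | empty => simpa using hd.empty
  | insert a s ha ih =>
    rw [Finset.set_biUnion_insert, Finset.sum_insert ha, hd.add, ih (h.subset (by simp))]
    rw [Set.disjoint_iUnion₂_right]
    intro i hi
    exact h (by simp) (by simp [hi]) fun e => ha (e ▸ hi)

end IsDens

end Pool.Agent.MP_f60a12_co

end

-- part MP_f60a12_co.Core
section

/-! The density of a product-free set inside a cone is at most one half. -/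

namespace Pool.Agent.MP_f60a12_co

open FreeGroup

variable {A : Type} [DecidableEq A] [Fintype A] [Nonempty A]

omit [DecidableEq A] in
lemma qq_real_pos : (0 : ℝ) < qq A := by exact_mod_cast qq_pos (A := A)

/-- The argument of Leader, Letzter, Narayanan and Walters inside a set closed under
cancellation-free products. -/
theorem core {d : Set (FreeGroup A) → ℝ} (hd : IsDens d) {S : Set (FreeGroup A)}
    (hS : ProductFree S) (E : Set (FreeGroup A)) (K : ℕ)
    (h1 : ∀ y ∈ E, ∀ u ∈ E, y * u ∈ E ∧ (y * u).toWord = y.toWord ++ u.toWord)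
    (h3 : ∀ y ∈ E, ∀ u ∈ E, ∀ y' ∈ E, ∀ u' ∈ E, y * u = y' * u' →
      u.toWord.length + K ≤ u'.toWord.length → ∃ t ∈ E, u' = t * u) :
    2 * d (S ∩ E) ≤ d E := by
  classical
  by_contra hcon
  push Not at hcon
  set η := 2 * d (S ∩ E) - d E with hη
  have hη0 : 0 < η := by linarith
  have hq := qq_real_pos (A := A)
  have hSE : d (S ∩ E) ≤ d E := hd.mono Set.inter_subset_right
  have hE0 : 0 < d E := by linarith [hd.nonneg (S ∩ E)]
  set cone : FreeGroup A → Set (FreeGroup A) := fun u => (fun y => y * u) '' E with hcone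
  set μ : Finset (FreeGroup A) → ℝ := fun Wf => ∑ u ∈ Wf, ((qq A : ℝ) ^ u.toWord.length)⁻¹ with hμ
  have hscale : ∀ u ∈ E, ∀ B ⊆ E,
      d ((fun y => y * u) '' B) = ((qq A : ℝ) ^ u.toWord.length)⁻¹ * d B := by
    intro u hu B hB
    have := hd.scale B (fun y => y * u) u.toWord.length (mul_left_injective u).injOn
      (fun y hy => by rw [(h1 y (hB hy) u hu).2, List.length_append])
    rw [← this]
    field_simp
  have hle : ∀ Wf : Finset (FreeGroup A), (↑Wf : Set (FreeGroup A)) ⊆ S ∩ E →
      (↑Wf : Set (FreeGroup A)).PairwiseDisjoint cone → μ Wf ≤ 1 := by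
    intro Wf hW hdisj
    have e1 := hd.biUnion Wf cone hdisj
    have e2 : d (⋃ u ∈ Wf, cone u) ≤ d E := by
      refine hd.mono ?_
      simp only [Set.iUnion_subset_iff]
      rintro u hu _ ⟨y, hy, rfl⟩
      exact (h1 y hy u (hW hu).2).1
    have e3 : ∑ u ∈ Wf, d (cone u) = μ Wf * d E := by
      rw [hμ, Finset.sum_mul]
      exact Finset.sum_congr rfl fun u hu => hscale u (hW hu).2 E subset_rfl
    have : μ Wf * d E ≤ 1 * d E := by linarith
    exact le_of_mul_le_mul_right this hE0
  have hstep : ∀ k : ℕ, ∃ Wf : Finset (FreeGroup A), (↑Wf : Set (FreeGroup A)) ⊆ S ∩ E ∧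
      (↑Wf : Set (FreeGroup A)).PairwiseDisjoint cone ∧ k * (η / 2) ≤ μ Wf := by
    intro k
    induction k with
    | zero => exact ⟨∅, by simp, by simp, by simp [hμ]⟩
    | succ k ih =>
      obtain ⟨Wf, hW, hdisj, hk⟩ := ih
      have hμ1 := hle Wf hW hdisj
      set X := ⋃ u ∈ Wf, cone u with hX
      have e1 : d (S ∩ E ∩ X) ≤ μ Wf * (d E - d (S ∩ E)) := by
        have e : S ∩ E ∩ X = ⋃ u ∈ Wf, (S ∩ E ∩ cone u) := by
          rw [hX, Set.inter_iUnion₂]
        rw [e, hd.biUnion Wf _ (hdisj.mono fun u => Set.inter_subset_right), hμ, Finset.sum_mul]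
        refine Finset.sum_le_sum fun u hu => ?_
        have a1 := hscale u (hW hu).2 E subset_rfl
        have a2 := hscale u (hW hu).2 (S ∩ E) Set.inter_subset_right
        have a3 := hd.add (S ∩ E ∩ cone u) ((fun y => y * u) '' (S ∩ E)) (by
          rw [Set.disjoint_left]
          rintro _ ⟨⟨hz, -⟩, -⟩ ⟨y, hy, rfl⟩
          exact hS y hy.1 u (hW hu).1 hz)
        have a4 : d (S ∩ E ∩ cone u ∪ (fun y => y * u) '' (S ∩ E)) ≤ d (cone u) :=
          hd.mono (Set.union_subset Set.inter_subset_right
            (Set.image_mono Set.inter_subset_right))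
        simp only [hcone] at a3 a4 ⊢
        rw [mul_sub]
        linarith
      have e2 : η / 2 < d ((S ∩ E) \ X) := by
        have a1 := hd.inter_add_diff (S ∩ E) X
        have a2 : μ Wf * (d E - d (S ∩ E)) ≤ 1 * (d E - d (S ∩ E)) :=
          mul_le_mul_of_nonneg_right hμ1 (by linarith)
        linarith
      obtain ⟨n, hn, hcard⟩ := hd.layer _ (η / 2) (by linarith) e2
        (Wf.sup (fun u => u.toWord.length) + K + 1)
      have hfin : (((S ∩ E) \ X) ∩ layer A n).Finite :=
        (layer_finite n).subset Set.inter_subset_right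
      have hlen : ∀ u ∈ Wf, u.toWord.length + K + 1 ≤ n := fun u hu => by
        have := Finset.le_sup (f := fun u : FreeGroup A => u.toWord.length) hu
        omega
      have hnew : ∀ u ∈ hfin.toFinset, u ∈ S ∩ E ∧ u ∉ X ∧ u.toWord.length = n := fun u hu => by
        rw [Set.Finite.mem_toFinset] at hu
        exact ⟨hu.1.1, hu.1.2, hu.2⟩
      have hcross : ∀ u ∈ Wf, ∀ u' ∈ hfin.toFinset, Disjoint (cone u) (cone u') := by
        intro u hu u' hu'
        rw [Set.disjoint_left]
        rintro _ ⟨y, hy, rfl⟩ ⟨y', hy', e⟩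
        obtain ⟨b1, b2, b3⟩ := hnew u' hu'
        obtain ⟨t, ht, e2⟩ := h3 y hy u (hW hu).2 y' hy' u' b1.2 e.symm
          (by have := hlen u hu; omega)
        exact b2 (Set.mem_iUnion₂.2 ⟨u, hu, t, ht, e2.symm⟩)
      refine ⟨Wf ∪ hfin.toFinset, ?_, ?_, ?_⟩
      · intro u hu
        rcases Finset.mem_union.1 hu with h | h
        · exact hW h
        · exact (hnew u h).1
      · intro u hu u' hu' hne
        rcases Finset.mem_union.1 hu with h | h <;> rcases Finset.mem_union.1 hu' with h' | h'
        · exact hdisj h h' hne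
        · exact hcross u h u' h'
        · exact (hcross u' h' u h).symm
        · show Disjoint (cone u) (cone u')
          rw [Set.disjoint_left]
          rintro _ ⟨y, hy, rfl⟩ ⟨y', hy', e⟩
          obtain ⟨b1, -, b3⟩ := hnew u h
          obtain ⟨c1, -, c3⟩ := hnew u' h'
          have e2 := congrArg toWord e
          simp only at e2
          rw [(h1 y hy u b1.2).2, (h1 y' hy' u' c1.2).2] at e2
          exact hne (toWord_injective (List.append_inj' e2 (by rw [b3, c3])).2).symm
      · have hdj : Disjoint Wf hfin.toFinset := by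
          rw [Finset.disjoint_left]
          intro u hu hu'
          have := hlen u hu
          have := (hnew u hu').2.2
          omega
        simp only [hμ] at hk ⊢
        rw [Finset.sum_union hdj]
        have e3 : ∑ u ∈ hfin.toFinset, ((qq A : ℝ) ^ u.toWord.length)⁻¹ =
            ((((S ∩ E) \ X) ∩ layer A n).ncard : ℝ) * ((qq A : ℝ) ^ n)⁻¹ := by
          rw [Set.ncard_eq_toFinset_card _ hfin, ← nsmul_eq_mul, ← Finset.sum_const]
          exact Finset.sum_congr rfl fun u hu => by rw [(hnew u hu).2.2]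
        have e4 : η / 2 ≤ ((((S ∩ E) \ X) ∩ layer A n).ncard : ℝ) * ((qq A : ℝ) ^ n)⁻¹ := by
          rw [← div_eq_mul_inv, le_div_iff₀ (by positivity)]
          exact hcard
        rw [e3]
        push_cast
        linarith
  obtain ⟨k, hk⟩ := exists_nat_gt (2 / η)
  obtain ⟨Wf, hW, hdisj, hk2⟩ := hstep k
  have := hle Wf hW hdisj
  rw [div_lt_iff₀ hη0] at hk
  linarith

/-- Membership depends only on the first `K` letters. -/
def Det (K : ℕ) (X : Set (FreeGroup A)) : Prop :=
  ∀ y y' : FreeGroup A, y.toWord.take K = y'.toWord.take K → y ∈ X → y' ∈ X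

/-- Words whose last letter lies in `L`. -/
def lastIn (L : Set (A × Bool)) : Set (FreeGroup A) := {y | ∃ c ∈ L, y.toWord.getLast? = some c}

/-- Words with first letter `a`. -/
def hdSet (a : A × Bool) : Set (FreeGroup A) := {y | y.toWord.head? = some a}

theorem good1 {d : Set (FreeGroup A) → ℝ} (hd : IsDens d) {S : Set (FreeGroup A)}
    (hS : ProductFree S) {K : ℕ} {X : Set (FreeGroup A)} (hX : Det K X) {a : A × Bool}
    (ha : X ⊆ hdSet a) {L : Set (A × Bool)} (hL : bar a ∉ L) :
    2 * d (S ∩ (X ∩ lastIn L)) ≤ d (X ∩ lastIn L) := by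
  set E : Set (FreeGroup A) := X ∩ lastIn L ∩ {y | K + 1 ≤ y.toWord.length} with hE
  have hw : ∀ y ∈ E, ∀ u ∈ E, (y * u).toWord = y.toWord ++ u.toWord := by
    rintro y ⟨⟨-, c, hc, hy⟩, -⟩ u ⟨⟨hu, -⟩, -⟩
    refine toWord_mul_of' fun x hx b hb e => ?_
    have h1 : u.toWord.head? = some a := ha hu
    rw [Option.mem_def, hy, Option.some.injEq] at hx
    rw [Option.mem_def, h1, Option.some.injEq] at hb
    subst hx hb
    rw [e, bar_bar] at hL
    exact hL hc
  have key := core hd hS E (K + 1) (fun y hy u hu => ⟨?_, hw y hy u hu⟩) ?_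
  · rw [hd.congr_long (B := S ∩ (X ∩ lastIn L)) (C := S ∩ E) (K + 1) (fun y hy => by
        simp only [hE, Set.mem_inter_iff, Set.mem_ofPred_eq, hy, and_true]),
      hd.congr_long (B := X ∩ lastIn L) (C := E) (K + 1) (fun y hy => by
        simp only [hE, Set.mem_inter_iff, Set.mem_ofPred_eq, hy, and_true])]
    exact key
  · have e := hw y hy u hu
    obtain ⟨⟨hy1, -⟩, hy3⟩ := hy
    obtain ⟨⟨-, c, hc, hu2⟩, -⟩ := hu
    have hy3' : K + 1 ≤ y.toWord.length := hy3
    refine ⟨⟨hX y _ ?_ hy1, c, hc, ?_⟩, ?_⟩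
    · rw [e, List.take_append_of_le_length (by omega)]
    · rw [e, List.getLast?_append, hu2]; rfl
    · show K + 1 ≤ (y * u).toWord.length
      rw [e, List.length_append]; omega
  · intro y hy u hu y' hy' u' hu' e hlen
    have e2 := congrArg toWord e
    rw [hw y hy u hu, hw y' hy' u' hu'] at e2
    have hs : u.toWord <:+ u'.toWord :=
      List.suffix_of_suffix_length_le ⟨_, e2⟩ (List.suffix_append _ _) (by omega)
    obtain ⟨r, hr⟩ := hs
    obtain ⟨t, v, ht, hv, e3⟩ := exists_split hr.symm
    obtain rfl := toWord_injective hv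
    have hrl : K + 1 ≤ r.length := by
      have := congrArg List.length hr
      rw [List.length_append] at this
      omega
    have e4 : y.toWord = y'.toWord ++ r := by
      rw [← hr, ← List.append_assoc] at e2
      exact List.append_cancel_right e2
    obtain ⟨⟨-, c, hc, hy2⟩, -⟩ := hy
    refine ⟨t, ⟨⟨hX u' t ?_ hu'.1.1, c, hc, ?_⟩, ?_⟩, e3⟩
    · rw [← hr, ht, List.take_append_of_le_length (by omega)]
    · rw [e4, List.getLast?_append_of_ne_nil _ (by rintro rfl; simp at hrl)] at hy2
      rw [ht, hy2]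
    · show K + 1 ≤ t.toWord.length
      rw [ht]; exact hrl

end Pool.Agent.MP_f60a12_co

end

-- part MP_f60a12_co.Cones
section

/-! The bound one half in every set determined by finitely many initial letters. -/

namespace Pool.Agent.MP_f60a12_co

open FreeGroup

variable {A : Type} [DecidableEq A] [Fintype A] [Nonempty A]

omit [Fintype A] [Nonempty A] in
lemma head_of_take {K : ℕ} {y y' : FreeGroup A}
    (h : y.toWord.take (K + 1) = y'.toWord.take (K + 1)) : y.toWord.head? = y'.toWord.head? := by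
  have := congrArg List.head? h
  simpa [List.head?_take] using this

omit [DecidableEq A] [Fintype A] [Nonempty A] in
lemma take_of_take {K : ℕ} {l l' : List (A × Bool)} (h : l.take (K + 1) = l'.take (K + 1)) :
    l.take K = l'.take K := by
  have := congrArg (List.take K) h
  simpa [List.take_take] using this

omit [Fintype A] [Nonempty A] in
lemma det_hd_inter {K : ℕ} {X : Set (FreeGroup A)} (hX : Det K X) (a : A × Bool) :
    Det (K + 1) (X ∩ hdSet a) := fun y y' h hy =>
  ⟨hX y y' (take_of_take h) hy.1, (head_of_take h).symm.trans hy.2⟩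

omit [Fintype A] [Nonempty A] in
lemma det_hd_diff {K : ℕ} {X : Set (FreeGroup A)} (hX : Det K X) (a : A × Bool) :
    Det (K + 1) (X \ hdSet a) := fun y y' h hy =>
  ⟨hX y y' (take_of_take h) hy.1, fun h2 => hy.2 ((head_of_take h).trans h2)⟩

omit [Fintype A] [Nonempty A] in
lemma det_compl {K : ℕ} {X : Set (FreeGroup A)} (hX : Det K X) : Det K Xᶜ :=
  fun y y' h hy hy' => hy (hX y' y h.symm hy')

omit [Fintype A] [Nonempty A] in
lemma det_preimage {K : ℕ} {X : Set (FreeGroup A)} (hX : Det K X) (a : A × Bool) :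
    Det (K + 1) {y | lt a * y ∈ X} := by
  intro y y' h hy
  refine hX _ _ ?_ hy
  have hh := head_of_take h
  by_cases c : y.toWord.head? = some (bar a)
  · obtain ⟨r, hr⟩ : ∃ r, y.toWord = bar a :: r := List.head?_eq_some_iff.1 c
    obtain ⟨r', hr'⟩ : ∃ r, y'.toWord = bar a :: r := List.head?_eq_some_iff.1 (hh ▸ c)
    obtain ⟨v, hv, e, -⟩ := exists_tail hr
    obtain ⟨v', hv', e', -⟩ := exists_tail hr'
    rw [hr, hr', List.take_succ_cons, List.take_succ_cons, List.cons.injEq] at h
    rw [e, e', ← mul_assoc, ← mul_assoc, lt_mul_lt_bar, one_mul, one_mul, hv, hv', h.2]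
  · rw [toWord_lt_mul c, toWord_lt_mul (hh ▸ c)]
    cases K with
    | zero => rfl
    | succ K =>
      rw [List.take_succ_cons, List.take_succ_cons, take_of_take (take_of_take h)]

omit [Fintype A] [Nonempty A] in
lemma toWord_conj {a : A × Bool} {t : FreeGroup A} (h0 : t.toWord ≠ [])
    (h1 : t.toWord.head? ≠ some (bar a)) (h2 : t.toWord.getLast? ≠ some a) :
    (lt a * t * lt (bar a)).toWord = a :: t.toWord ++ [bar a] := by
  rw [toWord_mul_lt, toWord_lt_mul h1]
  rw [toWord_lt_mul h1, bar_bar, List.getLast?_cons_of_ne_nil h0]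
  exact h2

theorem claim {d : Set (FreeGroup A) → ℝ} (hd : IsDens d) (j : ℕ) :
    ∀ (K : ℕ) (X : Set (FreeGroup A)), Det K X → ∀ a, X ⊆ hdSet a → ∀ (L : Set (A × Bool))
      (S : Set (FreeGroup A)), ProductFree S →
      2 * d (S ∩ (X ∩ lastIn L)) ≤ d (X ∩ lastIn L) + 2 / (qq A : ℝ) ^ j := by
  classical
  have hq := qq_real_pos (A := A)
  induction j with
  | zero =>
    intro K X _ a _ L S _
    have h1 := hd.le_one (S ∩ (X ∩ lastIn L))
    have h2 := hd.nonneg (X ∩ lastIn L)
    simp only [pow_zero, div_one]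
    linarith
  | succ j ih =>
    intro K X hX a ha L S hS
    by_cases hL : bar a ∈ L
    swap
    · have := good1 hd hS hX ha hL
      have h2 : 0 ≤ 2 / (qq A : ℝ) ^ (j + 1) := by positivity
      linarith
    have g1 := good1 hd hS hX ha (L := L \ {bar a}) (by simp)
    have split : X ∩ lastIn L = X ∩ lastIn (L \ {bar a}) ∪ X ∩ lastIn {bar a} := by
      ext y
      simp only [lastIn, Set.mem_inter_iff, Set.mem_ofPred_eq, Set.mem_union, Set.mem_sdiff,
        Set.mem_singleton_iff, exists_eq_left]
      constructor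
      · rintro ⟨h1, c, hc, h2⟩
        by_cases e : c = bar a
        · exact Or.inr ⟨h1, e ▸ h2⟩
        · exact Or.inl ⟨h1, c, ⟨hc, e⟩, h2⟩
      · rintro (⟨h1, c, hc, h2⟩ | ⟨h1, h2⟩)
        · exact ⟨h1, c, hc.1, h2⟩
        · exact ⟨h1, _, hL, h2⟩
    have hdisj : Disjoint (X ∩ lastIn (L \ {bar a})) (X ∩ lastIn {bar a}) := by
      rw [Set.disjoint_left]
      rintro y ⟨-, c, hc, h1⟩ ⟨-, c', hc', h2⟩
      rw [h1, Option.some.injEq] at h2
      exact hc.2 (h2 ▸ hc')
    rw [split, Set.inter_union_distrib_left, hd.add _ _ hdisj,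
      hd.add _ _ (hdisj.mono Set.inter_subset_right Set.inter_subset_right)]
    suffices 2 * d (S ∩ (X ∩ lastIn {bar a})) ≤ d (X ∩ lastIn {bar a}) + 2 / (qq A : ℝ) ^ (j + 1) by
      linarith
    set φ : FreeGroup A → FreeGroup A := fun t => lt a * t * lt (bar a) with hφ
    set Y : A × Bool → Set (FreeGroup A) :=
      fun b => ({t | lt a * t ∈ X} ∩ hdSet b) ∩ lastIn {c | c ≠ a} with hY
    set T : Set (FreeGroup A) := ⋃ b ∈ Finset.univ.erase (bar a), Y b with hT
    set S' : Set (FreeGroup A) := φ ⁻¹' S with hS'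
    have hφmul : ∀ x y, φ (x * y) = φ x * φ y := fun x y => by
      simp only [hφ, ← lt_inv]; group
    have hφinj : Function.Injective φ := fun x y h => mul_left_cancel (mul_right_cancel h)
    have hS'pf : ProductFree S' := fun x hx y hy hxy => hS _ hx _ hy (hφmul x y ▸ hxy)
    have hmemT : ∀ t, t ∈ T ↔ lt a * t ∈ X ∧ t.toWord ≠ [] ∧ t.toWord.head? ≠ some (bar a) ∧
        t.toWord.getLast? ≠ some a := by
      intro t
      simp only [hT, hY, hdSet, lastIn, Set.mem_iUnion, Set.mem_inter_iff, Set.mem_ofPred_eq,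
        Finset.mem_erase, Finset.mem_univ, and_true, exists_prop]
      constructor
      · rintro ⟨b, hb, ⟨h1, h2⟩, c, hc, h3⟩
        refine ⟨h1, fun e => by simp [e] at h2, ?_, ?_⟩
        · rw [h2]; simpa using hb
        · rw [h3]; simpa using hc
      · rintro ⟨h1, h2, h3, h4⟩
        refine ⟨t.toWord.head h2, fun e => h3 ?_, ⟨h1, List.head?_eq_some_head h2⟩,
          t.toWord.getLast h2, fun e => h4 ?_, List.getLast?_eq_some_getLast h2⟩
        · rw [List.head?_eq_some_head h2, e]
        · rw [List.getLast?_eq_some_getLast h2, e]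
    have hlenT : ∀ t ∈ T, (φ t).toWord.length = t.toWord.length + 2 := fun t ht => by
      obtain ⟨-, h2, h3, h4⟩ := (hmemT t).1 ht
      simp only [hφ]
      rw [toWord_conj h2 h3 h4]; simp
    have hlong : ∀ y, K + 3 ≤ y.toWord.length → (y ∈ X ∩ lastIn {bar a} ↔ y ∈ φ '' T) := by
      intro y hy
      constructor
      · rintro ⟨h1, c, hc, h2⟩
        rw [Set.mem_singleton_iff] at hc
        subst hc
        obtain ⟨r, hr⟩ : ∃ r, y.toWord = a :: r := List.head?_eq_some_iff.1 (ha h1)
        have hr0 : r ≠ [] := by rintro rfl; rw [hr] at hy; simp at hy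
        rw [hr, List.getLast?_cons_of_ne_nil hr0] at h2
        obtain ⟨m, rfl⟩ := List.getLast?_eq_some_iff.1 h2
        have hml : K + 1 ≤ m.length := by rw [hr] at hy; simpa using hy
        have hm0 : m ≠ [] := by rintro rfl; simp at hml
        obtain ⟨v, hv, e, h3⟩ := exists_tail hr
        obtain ⟨t, w, ht, hw, e2⟩ := exists_split hv
        obtain rfl : w = lt (bar a) := toWord_injective (by rw [hw, toWord_lt])
        have h4 : t.toWord.head? ≠ some (bar a) := by
          rw [ht]; rwa [List.head?_append_of_ne_nil _ hm0] at h3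
        have h5 : t.toWord.getLast? ≠ some a := by
          intro h6
          have := isReduced_toWord (x := t * lt (bar a))
          rw [← e2, hv] at this
          exact (isReduced_append.1 this).2.2 a (ht ▸ h6) (bar a) (by simp) rfl
        refine ⟨t, (hmemT t).2 ⟨hX y _ ?_ h1, ht ▸ hm0, h4, h5⟩, by rw [e, e2, ← mul_assoc]⟩
        rw [toWord_lt_mul h4, hr, ht, ← List.cons_append,
          List.take_append_of_le_length (by simp; omega)]
      · rintro ⟨t, ht, rfl⟩
        have hl := hlenT t ht
        obtain ⟨h1, h2, h3, h4⟩ := (hmemT t).1 ht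
        have e : (φ t).toWord = a :: t.toWord ++ [bar a] := toWord_conj h2 h3 h4
        refine ⟨hX _ _ ?_ h1, bar a, rfl, ?_⟩
        · rw [toWord_lt_mul h3, e, List.take_append_of_le_length (by simp; omega)]
        · rw [e, List.getLast?_concat]
    have hYdisj : (↑(Finset.univ.erase (bar a)) : Set (A × Bool)).PairwiseDisjoint Y := by
      intro b _ b' _ hne
      show Disjoint (Y b) (Y b')
      rw [Set.disjoint_left]
      rintro t ⟨⟨-, h1⟩, -⟩ ⟨⟨-, h2⟩, -⟩
      have h1' : t.toWord.head? = some b := h1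
      have h2' : t.toWord.head? = some b' := h2
      rw [h1', Option.some.injEq] at h2'
      exact hne h2'
    have e1 : d (X ∩ lastIn {bar a}) = d (φ '' T) := hd.congr_long (K + 3) hlong
    have e2 : d (S ∩ (X ∩ lastIn {bar a})) = d (φ '' (S' ∩ T)) := by
      rw [hS', Set.image_preimage_inter]
      exact hd.congr_long (K + 3) fun y hy => and_congr_right fun _ => hlong y hy
    have e3 := hd.scale T φ 2 hφinj.injOn hlenT
    have e4 := hd.scale (S' ∩ T) φ 2 hφinj.injOn fun t ht => hlenT t ht.2
    have e5 : d T = ∑ b ∈ Finset.univ.erase (bar a), d (Y b) := hd.biUnion _ _ hYdisj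
    have e6 : d (S' ∩ T) = ∑ b ∈ Finset.univ.erase (bar a), d (S' ∩ Y b) := by
      rw [hT, Set.inter_iUnion₂]
      exact hd.biUnion _ _ (hYdisj.mono fun b => Set.inter_subset_right)
    have e7 : 2 * d (S' ∩ T) ≤ d T + qq A * (2 / (qq A : ℝ) ^ j) := by
      rw [e5, e6, Finset.mul_sum, ← card_erase (bar a), ← nsmul_eq_mul, ← Finset.sum_const,
        ← Finset.sum_add_distrib]
      refine Finset.sum_le_sum fun b _ => ?_
      rw [card_erase]
      exact ih _ _ (det_hd_inter (det_preimage hX a) b) b Set.inter_subset_right _ S' hS'pf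
    rw [e1, e2]
    have e8 : qq A * (2 / (qq A : ℝ) ^ j) = (qq A : ℝ) ^ 2 * (2 / (qq A : ℝ) ^ (j + 1)) := by
      field_simp
      ring
    rw [← e3, ← e4, e8] at e7
    have h9 : (0 : ℝ) < (qq A : ℝ) ^ 2 := by positivity
    nlinarith

theorem good_hd {d : Set (FreeGroup A) → ℝ} (hd : IsDens d) {S : Set (FreeGroup A)}
    (hS : ProductFree S) {K : ℕ} {X : Set (FreeGroup A)} (hX : Det K X) {a : A × Bool}
    (ha : X ⊆ hdSet a) : 2 * d (S ∩ X) ≤ d X := by
  have hne : ∀ y ∈ X, y.toWord ≠ [] := fun y hy e => by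
    have : y.toWord.head? = some a := ha hy
    simp [e] at this
  by_cases hA : Fintype.card A ≤ 1
  · have : Subsingleton A := Fintype.card_le_one_iff_subsingleton.1 hA
    have e : X ∩ lastIn {a} = X := by
      refine Set.inter_eq_left.2 fun y hy => ⟨a, rfl, ?_⟩
      rw [List.getLast?_eq_some_getLast (hne y hy),
        all_eq_of_subsingleton isReduced_toWord a (ha hy) _
          (List.getLast?_eq_some_getLast (hne y hy))]
    have := good1 hd hS hX ha (L := {a}) (bar_ne a)
    rwa [e] at this
  · have e : X ∩ lastIn Set.univ = X :=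
      Set.inter_eq_left.2 fun y hy => ⟨_, trivial, List.getLast?_eq_some_getLast (hne y hy)⟩
    have hq : (1 : ℝ) < qq A := by
      have : 1 < qq A := by unfold qq; omega
      exact_mod_cast this
    refine le_of_forall_pos_le_add fun ε hε => ?_
    obtain ⟨j, hj⟩ := pow_unbounded_of_one_lt (2 / ε) hq
    have := claim hd j K X hX a ha Set.univ S hS
    rw [e] at this
    have h2 : 2 / (qq A : ℝ) ^ j ≤ ε := by
      rw [div_lt_iff₀ hε] at hj
      rw [div_le_iff₀ (by positivity)]
      linarith
    linarith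

theorem good {d : Set (FreeGroup A) → ℝ} (hd : IsDens d) {S : Set (FreeGroup A)}
    (hS : ProductFree S) {K : ℕ} {X : Set (FreeGroup A)} (hX : Det K X) :
    2 * d (S ∩ X) ≤ d X := by
  have key : ∀ B : Set (FreeGroup A), d B = ∑ a, d (B ∩ hdSet a) := by
    intro B
    rw [← hd.biUnion Finset.univ fun a => B ∩ hdSet a]
    · refine hd.congr_long 1 fun y hy => ?_
      have h0 : y.toWord ≠ [] := by rintro e; simp [e] at hy
      simp only [Finset.mem_univ, Set.iUnion_true, Set.mem_iUnion, Set.mem_inter_iff]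
      exact ⟨fun h => ⟨_, h, List.head?_eq_some_head h0⟩, fun ⟨_, h, _⟩ => h⟩
    · intro b _ b' _ hne
      show Disjoint (B ∩ hdSet b) (B ∩ hdSet b')
      rw [Set.disjoint_left]
      rintro t ⟨-, h1⟩ ⟨-, h2⟩
      have h1' : t.toWord.head? = some b := h1
      have h2' : t.toWord.head? = some b' := h2
      rw [h1', Option.some.injEq] at h2'
      exact hne h2'
  rw [key X, key (S ∩ X), Finset.mul_sum]
  refine Finset.sum_le_sum fun a _ => ?_
  rw [Set.inter_assoc]
  exact good_hd hd hS (det_hd_inter hX a) Set.inter_subset_right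

end Pool.Agent.MP_f60a12_co

end

-- part MP_f60a12_co.Final
section

/-! Product-free sets of density one half lie in an odd class of a parity labelling. -/

namespace Pool.Agent.MP_f60a12_co

open FreeGroup

variable {A : Type} [DecidableEq A] [Fintype A] [Nonempty A]

section
variable {d : Set (FreeGroup A) → ℝ} (hd : IsDens d)
include hd

lemma letter_formula (a : A × Bool) (B : Set (FreeGroup A)) :
    d {y | lt a * y ∈ B} = qq A * d (B ∩ hdSet a) + d (B \ hdSet a) / qq A := by
  have hq := qq_real_pos (A := A)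
  rw [hd.inter_add_diff {y | lt a * y ∈ B} (hdSet (bar a)), add_comm]
  congr 1
  · have h1 := hd.scale ({y | lt a * y ∈ B} \ hdSet (bar a)) (fun y => lt a * y) 1
      (mul_right_injective _).injOn (fun y hy => by rw [toWord_lt_mul hy.2]; simp)
    rw [← h1, pow_one]
    congr 2
    ext z
    constructor
    · rintro ⟨y, hy, rfl⟩
      refine ⟨hy.1, ?_⟩
      show (lt a * y).toWord.head? = some a
      rw [toWord_lt_mul hy.2]; rfl
    · rintro ⟨h2, h3⟩
      obtain ⟨r, hr⟩ : ∃ r, z.toWord = a :: r := List.head?_eq_some_iff.1 h3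
      obtain ⟨v, hv, e, h4⟩ := exists_tail hr
      refine ⟨v, ⟨?_, ?_⟩, e.symm⟩
      · show lt a * v ∈ B
        rwa [← e]
      · show ¬ v.toWord.head? = some (bar a)
        rwa [hv]
  · have h0 : ∀ y ∈ B \ hdSet a, y.toWord.head? ≠ some (bar (bar a)) := fun y hy => by
      rw [bar_bar]; exact hy.2
    have h1 := hd.scale (B \ hdSet a) (fun y => lt (bar a) * y) 1
      (mul_right_injective _).injOn (fun y hy => by rw [toWord_lt_mul (h0 y hy)]; simp)
    rw [← h1, pow_one, mul_div_cancel_left₀ _ hq.ne']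
    congr 1
    ext z
    constructor
    · rintro ⟨h2, h3⟩
      obtain ⟨r, hr⟩ : ∃ r, z.toWord = bar a :: r := List.head?_eq_some_iff.1 h3
      obtain ⟨v, hv, e, h4⟩ := exists_tail hr
      refine ⟨v, ⟨?_, ?_⟩, e.symm⟩
      · have h5 : lt a * z ∈ B := h2
        rwa [e, ← mul_assoc, lt_mul_lt_bar, one_mul] at h5
      · show ¬ v.toWord.head? = some a
        rwa [hv, ← bar_bar a]
    · rintro ⟨y, hy, rfl⟩
      constructor
      · show lt a * (lt (bar a) * y) ∈ B
        rw [← mul_assoc, lt_mul_lt_bar, one_mul]; exact hy.1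
      · show (lt (bar a) * y).toWord.head? = some (bar a)
        rw [toWord_lt_mul (h0 y hy)]; rfl

omit [Nonempty A] in
lemma null_mono {B C : Set (FreeGroup A)} (h : B ⊆ C) (hC : d C = 0) : d B = 0 :=
  le_antisymm (hC ▸ hd.mono h) (hd.nonneg B)

omit [Nonempty A] in
lemma null_union {B C : Set (FreeGroup A)} (hB : d B = 0) (hC : d C = 0) : d (B ∪ C) = 0 :=
  le_antisymm (by have := hd.union_le B C; linarith) (hd.nonneg _)

omit hd [DecidableEq A] [Fintype A] [Nonempty A] in
lemma mk_cons (a : A × Bool) (l : List (A × Bool)) :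
    FreeGroup.mk (a :: l) = lt a * FreeGroup.mk l := by
  rw [lt, FreeGroup.mul_mk]; rfl

omit hd [DecidableEq A] [Fintype A] [Nonempty A] in
lemma preimage_induction {P : Set (FreeGroup A) → Prop}
    (h : ∀ a B, P B → P {y | lt a * y ∈ B}) (g : FreeGroup A) :
    ∀ B, P B → P {y | g * y ∈ B} := by
  classical
  rw [← mk_toWord (x := g)]
  induction g.toWord with
  | nil =>
    intro B hB
    have : FreeGroup.mk ([] : List (A × Bool)) = 1 := rfl
    simpa [this] using hB
  | cons a l ih =>
    intro B hB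
    have := ih _ (h a B hB)
    simpa [mk_cons, mul_assoc] using this

lemma null_preimage (g : FreeGroup A) {B : Set (FreeGroup A)} (hB : d B = 0) :
    d {y | g * y ∈ B} = 0 := by
  refine preimage_induction (P := fun B => d B = 0) (fun a C hC => ?_) g B hB
  rw [letter_formula hd, null_mono hd Set.inter_subset_left hC,
    null_mono hd Set.sdiff_subset hC]
  simp

/-- Equidistribution with density one half passes to translates. -/
lemma equi_preimage (g : FreeGroup A) {B : Set (FreeGroup A)}
    (hB : ∀ K X, Det K X → 2 * d (B ∩ X) = d X) :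
    ∀ K X, Det K X → 2 * d ({y | g * y ∈ B} ∩ X) = d X := by
  refine preimage_induction (P := fun B => ∀ K X, Det K X → 2 * d (B ∩ X) = d X)
    (fun a C hC K X hX => ?_) g B hB
  set X' : Set (FreeGroup A) := {z | lt (bar a) * z ∈ X} with hX'
  have hdet : Det (K + 1) X' := det_preimage hX (bar a)
  have hc : ∀ y : FreeGroup A, lt (bar a) * (lt a * y) = y := fun y => by
    rw [← lt_inv, inv_mul_cancel_left]
  have e1 : {y | lt a * y ∈ C} ∩ X = {y | lt a * y ∈ C ∩ X'} := by
    ext y; simp [hX', hc]
  have e2 : X = {y | lt a * y ∈ X'} := by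
    ext y; simp [hX', hc]
  have e3 := letter_formula hd a X'
  rw [← e2] at e3
  rw [e1, letter_formula hd, e3, ← hC _ _ (det_hd_inter hdet a), ← hC _ _ (det_hd_diff hdet a),
    Set.inter_assoc, Set.inter_sdiff_assoc]
  ring

end

theorem structure_thm {S : Set (FreeGroup A)} (hS : ProductFree S)
    (hdens : upperBanachDensity S = 1 / 2) :
    ∃ lab : A × Bool → ZMod 2, (∀ α : A, lab (α, false) = -lab (α, true)) ∧
      ∀ w ∈ S, labelSum lab w = 1 := by
  classical
  obtain ⟨d, hd, hdS⟩ := exists_dens S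
  rw [hdens] at hdS
  have hcompl : ∀ X, d X + d Xᶜ = 1 := fun X => by
    rw [← hd.add _ _ disjoint_compl_right, Set.union_compl_self, hd.univ]
  have hequi : ∀ K X, Det K X → 2 * d (S ∩ X) = d X := by
    intro K X hX
    have h1 := good hd hS hX
    have h2 := good hd hS (det_compl hX)
    have h3 := hd.inter_add_diff S X
    have h4 := hcompl X
    rw [Set.sdiff_eq] at h3
    linarith
  have hhalf : ∀ g, d {y | g * y ∈ S} = 1 / 2 := fun g => by
    have := equi_preimage hd g hequi 0 Set.univ (fun _ _ _ _ => trivial)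
    rw [Set.inter_univ, hd.univ] at this
    linarith
  have hconull : ∀ x ∈ S, d (S ∪ {y | x * y ∈ S})ᶜ = 0 := fun x hx => by
    have h1 := hcompl (S ∪ {y | x * y ∈ S})
    rw [hd.add S {y | x * y ∈ S} (Set.disjoint_left.2 fun y hy hy' => hS x hx y hy hy'), hdS,
      hhalf] at h1
    linarith
  set f : FreeGroup A → ZMod 2 := fun y => if y ∈ S then 1 else 0 with hf
  set P : FreeGroup A → ZMod 2 → Prop := fun g e => d {y | f (g * y) ≠ f y + e} = 0 with hP
  have hmul : ∀ g h e e', P g e → P h e' → P (g * h) (e + e') := by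
    intro g h e e' h1 h2
    refine null_mono hd ?_ (null_union hd h2 (null_preimage hd h h1))
    intro y hy
    by_contra hcon
    simp only [Set.mem_union, Set.mem_ofPred_eq, not_or, not_not] at hcon
    apply hy
    rw [mul_assoc, hcon.2, hcon.1]; ring
  have hinv : ∀ g e, P g e → P g⁻¹ e := by
    intro g e h1
    refine null_mono hd ?_ (null_preimage hd g⁻¹ h1)
    intro y hy hcon
    apply hy
    rw [mul_inv_cancel_left] at hcon
    rw [hcon, add_assoc]
    have : e + e = 0 := by
      have : ∀ e : ZMod 2, e + e = 0 := by decide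
      exact this e
    rw [this, add_zero]
  have huniq : ∀ g e e', P g e → P g e' → e = e' := by
    intro g e e' h1 h2
    by_contra hne
    have h3 := null_mono hd (B := Set.univ) (fun y _ => ?_) (null_union hd h1 h2)
    · rw [hd.univ] at h3; exact one_ne_zero h3
    · by_contra hcon
      simp only [Set.mem_union, Set.mem_ofPred_eq, not_or, not_not] at hcon
      exact hne (add_left_cancel (hcon.1.symm.trans hcon.2))
  have hSP : ∀ x ∈ S, P x 1 := by
    intro x hx
    refine null_mono hd (fun y hy => ?_) (hconull x hx)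
    rintro (h1 | h1)
    · have h2 := hS x hx y h1
      apply hy
      simp only [hf, if_pos h1, if_neg h2]
      decide
    · have h1' : x * y ∈ S := h1
      have h2 : y ∉ S := fun h => hS x hx y h h1'
      apply hy
      simp only [hf, if_pos h1', if_neg h2, zero_add]
  have hne : S.Nonempty := by
    rw [Set.nonempty_iff_ne_empty]
    rintro rfl
    rw [hd.empty] at hdS
    norm_num at hdS
  obtain ⟨x, hx⟩ := hne
  have hall : ∀ g, ∃ e, P g e := by
    have hH : d {g | ¬ ∃ e, P g e} = 0 := by
      refine null_mono hd (fun y hy => ?_) (hconull x hx)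
      rintro (h1 | h1)
      · exact hy ⟨1, hSP y h1⟩
      · have := hmul _ _ _ _ (hinv _ _ (hSP x hx)) (hSP _ h1)
        rw [inv_mul_cancel_left] at this
        exact hy ⟨_, this⟩
    intro g
    by_contra hg
    have h3 := null_mono hd (B := Set.univ) (fun y _ => ?_)
      (null_union hd hH (null_preimage hd g hH))
    · rw [hd.univ] at h3; exact one_ne_zero h3
    · by_contra hcon
      simp only [Set.mem_union, Set.mem_ofPred_eq, not_or, not_not] at hcon
      obtain ⟨⟨e, he⟩, ⟨e', he'⟩⟩ := hcon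
      have := hmul _ _ _ _ he' (hinv _ _ he)
      rw [mul_inv_cancel_right] at this
      exact hg ⟨_, this⟩
  choose χ hχ using hall
  have hχmul : ∀ g h, χ (g * h) = χ g + χ h := fun g h =>
    huniq _ _ _ (hχ _) (hmul _ _ _ _ (hχ g) (hχ h))
  have hχone : χ 1 = 0 := by
    have := hχmul 1 1
    rw [mul_one] at this
    exact left_eq_add.1 this
  have hsum : ∀ l : List (A × Bool), (l.map fun a => χ (lt a)).sum = χ (FreeGroup.mk l) := by
    intro l
    induction l with
    | nil => exact hχone.symm
    | cons a l ih => rw [List.map_cons, List.sum_cons, ih, mk_cons, hχmul]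
  refine ⟨fun a => χ (lt a), fun α => ?_, fun w hw => ?_⟩
  · have := hχmul (lt (α, true)) (lt (bar (α, true)))
    rw [lt_mul_lt_bar, hχone] at this
    exact eq_neg_of_add_eq_zero_right this.symm
  · rw [labelSum, hsum, mk_toWord]
    exact huniq _ _ _ (hχ w) (hSP w hw)

end Pool.Agent.MP_f60a12_co

end
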